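import Mathlib
import Pool.Agent.Results.MP_356e41_ag.NotEventuallyPolynomial
import Pool.Agent.Y241.SM.Cor

/-!
# Every Diophantine counting function is a sequence of Specht multiplicities

For every real polynomial `F` in `r` variables there is one symmetric function `f` such that, for
all `n`, the multiplicity of the trivial module in `H^0(V_n(f); ℚ)` is the number of `m ∈ ℕ^r` with
`m_1 + ⋯ + m_r ≤ n` and `F(m) = 0`.  So the multiplicities of principal ideals can grow like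
`n ^ (s / d)` for all `s ≥ 0`, `d ≥ 1`, and like `log n`; they need not be quasi-polynomial, and
every period occurs.
-/

namespace Pool.Agent.Results.MP_356e41_ag.DiophantineGrowth

open Pool.Agent.Results.MP_356e41_ag.NotEventuallyPolynomial

/-- The multiplicity `m_{0, {∅}_n}(V_n(I))` of the trivial module `S^{(n)}` in `H^0(V_n(I); ℚ)`,
for the principal ideal `I = (f)`. -/
noncomputable abbrev mtriv (f : SymFun) (n : ℕ) : ℕ :=
  mult (fun _ : Fin 1 => f) 0 n (pad ⊥ n (bot_le n))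

theorem result :
    -- every Diophantine counting function occurs, for a principal ideal
    (∀ (r : ℕ) (F : MvPolynomial (Fin r) ℝ), ∃ f : SymFun, ∀ n : ℕ, mtriv f n =
      Nat.card {m : Fin r → ℕ //
        ∑ j, m j ≤ n ∧ MvPolynomial.eval (fun j => (m j : ℝ)) F = 0}) ∧
    -- every period occurs
    (∀ q : ℕ, 0 < q → ∃ f : SymFun, ∀ n : ℕ, mtriv f n = n / q + 1) ∧
    -- all growth exponents `s / d` occur
    (∀ s d : ℕ, 0 < d → ∃ f : SymFun, ∀ n : ℕ,
      mtriv f n = Nat.card {k : Fin s → ℕ // ∑ i, k i ^ d ≤ n} ∧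
      (∀ R : ℕ, s * R ^ d ≤ n → (R + 1) ^ s ≤ mtriv f n) ∧
      (∀ R : ℕ, n < R ^ d → mtriv f n ≤ R ^ s)) ∧
    -- logarithmic growth occurs, and the multiplicities need not be quasi-polynomial
    (∃ f : SymFun, (∀ n K : ℕ, n < 2 ^ K → mtriv f n ≤ K) ∧
      (∀ n K : ℕ, 4 ^ K ≤ n → K + 1 ≤ mtriv f n) ∧
      ¬ ∃ (q : ℕ) (_ : 0 < q) (P : ℕ → Polynomial ℚ) (N : ℕ), ∀ n, N ≤ n →
        (mtriv f n : ℚ) = (P (n % q)).eval (n : ℚ)) ∧
    -- in particular the polynomial growth conjecture fails for principal ideals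
    (∃ (f : Fin 1 → SymFun) (lam : YoungDiagram) (p : ℕ),
      ¬ ∃ (P : Polynomial ℚ) (N : ℕ), ∀ (n : ℕ) (h : lam.rowLen 0 + lam.cells.card ≤ n),
        N ≤ n → (mult f p n (pad lam n h) : ℚ) = P.eval (n : ℚ)) := by
  obtain ⟨g, hg1, hg2, hg3⟩ := Pool.Agent.Y241.SM.logarithm
  have hq := Pool.Agent.Y241.SM.not_quasi (Pool.Agent.Y241.SM.mtriv g) hg1 hg2 hg3
  refine ⟨fun r F => Pool.Agent.Y241.SM.gen F, fun q hq => Pool.Agent.Y241.SM.periods q hq,
    ?_, ⟨g, hg1, hg2, hq⟩, ?_⟩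
  · intro s d hd
    obtain ⟨f, hf⟩ := Pool.Agent.Y241.SM.powers s d hd
    refine ⟨f, fun n => ⟨hf n, fun R hR => ?_, fun R hR => ?_⟩⟩
    · exact (Pool.Agent.Y241.SM.powers_lower s d n R hd hR).trans (hf n).ge
    · exact (hf n).le.trans (Pool.Agent.Y241.SM.powers_upper s d n R hR)
  · refine ⟨fun _ => g, ⊥, 0, ?_⟩
    rintro ⟨P, N, hP⟩
    exact hq ⟨1, one_pos, fun _ => P, N, fun n hn => hP n (bot_le n) hn⟩

end Pool.Agent.Results.MP_356e41_ag.DiophantineGrowth
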